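import Pool.Agent.H551R3.SabSch

set_option autoImplicit false

namespace Pool.Agent.Results.MP_08a7ad_al.SchreierAllDegrees

open Pool.Agent.H551R3.Sab

universe u

/-- Over every field of characteristic zero and for every `d`, the variety of degree `d` Sabinin
algebras is a Schreier variety. -/
theorem result (F : Type u) [Field F] [CharZero F] (d : ℕ) (_hd : 2 ≤ d) : IsSchreier F d :=
  isSchreier F d

end Pool.Agent.Results.MP_08a7ad_al.SchreierAllDegrees
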